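import Pool.Agent.H213R3.PerCirc

/-!
# Circuits for the permanent need order `N² log N` products

Every arithmetic circuit over a field of characteristic `0` which computes the generic `N × N`
permanent, `N ≥ 2^18`, with product gates of arbitrary fan-in and with free linear gates, has
product gates of total cost (fan-in minus one) at least `N² ⌊log₂ N⌋ / 1152`.
-/

set_option autoImplicit false

open MvPolynomial Finset

open Pool.Agent.H213R3.PC

namespace Pool.Agent.Results.MP_8b1d3b_lc.CircuitsNSqLogN

theorem result (K : Type*) [Field K] [CharZero K] (N : ℕ) (hN : 2 ^ 18 ≤ N) (s : ℕ)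
    (node : (i : ℕ) → Node K (Fin N × Fin N) i) (g : ℕ → MvPolynomial (Fin N × Fin N) K)
    (hg : ∀ i < s, g i = (node i).value g)
    (hper : ∃ i < s, g i =
      (Matrix.of fun a b : Fin N => (X (a, b) : MvPolynomial (Fin N × Fin N) K)).permanent) :
    N ^ 2 * Nat.log 2 N ≤ 1152 * ∑ i ∈ range s, (node i).cost :=
  per_circuit hN s node g hg hper

end Pool.Agent.Results.MP_8b1d3b_lc.CircuitsNSqLogN
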