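import Pool.Agent.H505R3.SLM.Rand

/-!
# Randomized computation trees which recognize the matrices of permanent zero

The computation trees have free linear gates, product gates of any fan-in, and free tests whether a
computed value lies in a set which is locally constant away from `0` (so tests `= 0`, and over the
reals also tests of the sign). Every such tree, also randomized with two-sided error, which
distinguishes the matrices of permanent zero from generic matrices needs `N² ⌊log₂ N⌋ / 1000`
products, `N ≥ 2^24`.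
-/

set_option autoImplicit false

open MvPolynomial

open Pool.Agent.H505R3.SLM

namespace Pool.Agent.Results.MP_8b1d3b_lc.DecidingZeroPermanent

theorem result {K : Type*} [NontriviallyNormedField K] [CharZero K] (N : ℕ) (hN : 2 ^ 24 ≤ N)
    {Ω : Type} [Fintype Ω] (w : Ω → ℝ) (hw0 : ∀ ω, 0 ≤ w ω) (hw1 : ∑ ω, w ω = 1) (ε : ℝ)
    (T : Ω → NTree K (Fin N × Fin N) 0)
    (q : MvPolynomial (Fin N × Fin N) K) (hq : q ≠ 0)
    (h0 : ∀ X : Matrix (Fin N) (Fin N) K, X.permanent = 0 →
      1 - ε ≤ ∑ ω, if (T ω).run (fun p => X p.1 p.2) (fun _ => 0) = true then w ω else 0)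
    (h1 : ∀ X : Matrix (Fin N) (Fin N) K, eval (fun p => X p.1 p.2) q ≠ 0 →
      1 - ε ≤ ∑ ω, if (T ω).run (fun p => X p.1 p.2) (fun _ => 0) = false then w ω else 0) :
    1 - 2 * ε ≤ ∑ ω, if N ^ 2 * Nat.log 2 N ≤ 1000 * (T ω).cost then w ω else 0 :=
  rand_bound N hN w hw0 hw1 ε T q hq h0 h1

end Pool.Agent.Results.MP_8b1d3b_lc.DecidingZeroPermanent
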