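import Pool.Agent.H429R4.FW.Permanent

/-!
# Circuits for the permanent have exponentially many wirings up to a small group

A permutation of the rows and columns turns the wiring of a gate of a circuit that reads a matrix
(the entry that the gate reads, and the multiset of the labelled functions on the wires that enter
it) into a transform of the wiring. No symmetry of the circuit is assumed, and the gates may compute
arbitrary functions of unbounded fan-in with values in an arbitrary set, in particular sums,
products and constants. We show that every circuit that computes the permanent of `n × n` matrices
has `2 ^ (Ω(n))` different transforms of wirings, already under an abelian group of row and column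
permutations: Klein's four-groups acting on disjoint quadruples of rows and the swaps of disjoint
pairs of columns.

If the circuit is symmetric under this group then the number of the transforms of the wirings is at
most the number of gates; so this extends the bound for symmetric circuits
(`MP_8b1d3b_lc.SmallGroupSymmetry`) to circuits without symmetries.
-/

namespace Pool.Agent.Results.MP_8b1d3b_lc.FewWirings

open Pool.Agent.H30R2.PS (Four)
open Pool.Agent.H429R4.FW

/-- **Circuits for the permanent have exponentially many wirings up to a small group.**
Let `K` be a commutative ring in which no power of two vanishes, and let `8 w ≤ n`. Let a circuit
(with arbitrary gates with values in any set `D`) read the entries of an `n × n` matrix over `K` and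
let the value of the output gate determine the permanent of the matrix, for all matrices. For all
`2 w` disjoint quadruples of rows and `3 w` disjoint pairs of columns, the wirings of the gates of
the circuit have at least `2 ^ (w / 3200)` different transforms under the group (of order
`2 ^ (7 w)`) generated by Klein's four-groups acting on the quadruples and by the swaps of the
pairs. -/
theorem result {K : Type} [CommRing K] (hK : ∀ k : ℕ, (2 : K) ^ k ≠ 0) {n w : ℕ} (hn : 8 * w ≤ n)
    (ρ : Fin (2 * w) × Four ↪ Fin n) (κ : Fin (3 * w) × ZMod 2 ↪ Fin n)
    (D L : Type) (C : Circuit K (Fin n × Fin n) D L) (out : D → K)
    (hC : ∀ M : Matrix (Fin n) (Fin n) K, out (C.output (entries M)) = M.permanent) :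
    2 ^ (w / 3200) ≤ numWirings entries C (blockMoves K ρ κ) :=
  perm_wirings hK hn ρ κ C out hC

end Pool.Agent.Results.MP_8b1d3b_lc.FewWirings
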