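import Pool.Agent.H53R8.Final

/-!
# Circuits for polynomials which vanish on the graph of the permanent

Every nonzero polynomial in `X` and `y` which vanishes whenever `y` is the permanent of `X`, i.e.
every nonzero multiple of `y - per_N(X)`, of any degree, needs `(1/96 - o(1)) N² log₂ N`
multiplications, exactly and also approximately.
-/

set_option autoImplicit false

open MvPolynomial

namespace Pool.Agent.Results.MP_8b1d3b_lc.GraphOfPermanent

universe u

/-- A division-free straight-line program `g 0, …, g (s - 1)` over the field `K` in which additions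
and multiplications by constants are free: a line `i ∉ M` is any linear combination, with
coefficients in `K`, of `1`, the variables and the earlier lines; a line `i ∈ M` is the product of
two earlier lines.  The cost of the program is the number of elements of `M`. -/
def IsProgram {K σ : Type*} [Field K] (s : ℕ) (M : Finset ℕ) (g : ℕ → MvPolynomial σ K) : Prop :=
  ∀ i < s, (i ∉ M ∧ g i ∈ Submodule.span K
      ({1} ∪ Set.range (X : σ → MvPolynomial σ K) ∪ g '' {j | j < i})) ∨
    (i ∈ M ∧ ∃ a < i, ∃ b < i, g i = g a * g b)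

/-- `F` is computed by such a program with at most `r` product lines. -/
def ComputedWith {K σ : Type*} [Field K] (r : ℕ) (F : MvPolynomial σ K) : Prop :=
  ∃ (s : ℕ) (M : Finset ℕ) (g : ℕ → MvPolynomial σ K),
    M.card ≤ r ∧ IsProgram s M g ∧ ∃ i < s, g i = F

/-- All coefficients of `F` are defined at `ε = 0` and `F_{ε=0} = f`. -/
def SpecializesTo {K σ : Type*} [Field K] (F : MvPolynomial σ (RatFunc K))
    (f : MvPolynomial σ K) : Prop :=
  ∀ d, (coeff d F).denom.eval 0 ≠ 0 ∧ (coeff d F).eval (RingHom.id K) 0 = coeff d f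

/-- The point `(A, y)` of the affine space with one coordinate for each entry of an `N × N` matrix
and one more coordinate. -/
def point {K : Type*} {N : ℕ} (A : Matrix (Fin N) (Fin N) K) (y : K) :
    Option (Fin N × Fin N) → K :=
  fun o => o.elim y fun p => A p.1 p.2

/-- The set `{(A, y) : y = per A}` of pairs of an `N × N` matrix over `K` and an element of `K`. -/
def graphOfPermanent (K : Type*) [Field K] (N : ℕ) : Set (Option (Fin N × Fin N) → K) :=
  {z | ∃ A : Matrix (Fin N) (Fin N) K, z = point A A.permanent}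

/-- **Every equation for the graph of the permanent needs `(1/96 - o(1)) N² log₂ N`
multiplications.**  For every `ε > 0` there is `N₀` such that for all fields `K` of characteristic
zero, all `N ≥ N₀` and all `G ≠ 0` over `K` in `N² + 1` variables (of any degree) which vanish on
the graph of the `N × N` permanent:

* if `G` is computed over `K` with at most `r` multiplications, then
  `r ≥ (1/96 - ε) N² log₂ N`;
* more generally, if some polynomial over `K(ε)` (`RatFunc K`) which is defined at `ε = 0` and
  specializes to `G` is computed over `K(ε)` with at most `r` multiplications, then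
  `r ≥ (1/96 - ε) N² log₂ N`. -/
theorem result (ε : ℝ) (hε : 0 < ε) : ∃ N₀ : ℕ, ∀ (K : Type u) [Field K] [CharZero K],
    ∀ N ≥ N₀, ∀ G : MvPolynomial (Option (Fin N × Fin N)) K, G ≠ 0 →
      (∀ z ∈ graphOfPermanent K N, eval z G = 0) → ∀ r : ℕ,
      (ComputedWith r G → (1 / 96 - ε) * (N : ℝ) ^ 2 * Real.logb 2 N ≤ r) ∧
      (∀ F : MvPolynomial (Option (Fin N × Fin N)) (RatFunc K), SpecializesTo F G →
        ComputedWith r F → (1 / 96 - ε) * (N : ℝ) ^ 2 * Real.logb 2 N ≤ r) := by
  obtain ⟨N₁, h₁⟩ := Pool.Agent.H53R7.graph_lower.{u} ε hε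
  obtain ⟨N₂, h₂⟩ := Pool.Agent.H53R8.graph_border.{u} ε hε
  refine ⟨max N₁ N₂, fun K _ _ N hN G hG hv r => ?_⟩
  have hG0 := Pool.Agent.H53R7.gs_eq_zero G fun A => hv _ ⟨A, rfl⟩
  refine ⟨?_, ?_⟩
  · rintro ⟨s, M, g, hM, hg, i, hi, hgi⟩
    have h3 := h₁ K N ((le_max_left _ _).trans hN) s M g hg G hG hG0 ⟨i, hi, hgi.symm⟩
    have h4 : (M.card : ℝ) ≤ r := by exact_mod_cast hM
    exact h3.trans h4
  · rintro F hF ⟨s, M, g, hM, hg, i, hi, hgi⟩
    have h3 := h₂ K N ((le_max_right _ _).trans hN) G hG hG0 F hF s M g hg ⟨i, hi, hgi.symm⟩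
    have h4 : (M.card : ℝ) ≤ r := by exact_mod_cast hM
    exact h3.trans h4

end Pool.Agent.Results.MP_8b1d3b_lc.GraphOfPermanent
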